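import Pool.Agent.H118.CE.Up

set_option autoImplicit false

/-!
# No constant below `1/4` works

If a real `c` has the property that `cr(G + uv) ≤ cr(G) + c m` for every finite graph `G` with
`m` edges and every pair of distinct non-adjacent vertices `u, v` of `G`, then `c ≥ 1/4`.
The family: `K_{4,2r}` with hubs `0,1,2,3`, to which `u` (joined to the hubs `1, 2`) and `v`
(joined to the hubs `0, 3`) are added. It has `8r+4` edges and crossing number at most
`2r(r-1)`, and adding the edge `uv` raises the crossing number to at least `2r²`.
-/

namespace Pool.Agent.Results.MP_60f107_co.Quarter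

open Pool.Agent.Helper770.Crossing

theorem result (c : ℝ)
    (h : ∀ (V : Type) [Fintype V] (G : SimpleGraph V) (u v : V), u ≠ v → ¬ G.Adj u v →
      (crossingNumber (G ⊔ SimpleGraph.edge u v) : ℝ) ≤
        crossingNumber G + c * G.edgeSet.ncard) :
    1 / 4 ≤ c :=
  Pool.Agent.H118.CE.main c h

end Pool.Agent.Results.MP_60f107_co.Quarter
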